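import Mathlib

set_option autoImplicit false

namespace Pool.Agent.Results.MP_72464c_an.NoExt

open Finset Filter Topology
open scoped symmDiff

/-- The closed linear span of a family. -/
abbrev cspan {ι X : Type} [NormedAddCommGroup X] [NormedSpace ℝ X] (v : ι → X) : Submodule ℝ X :=
  (Submodule.span ℝ (Set.range v)).topologicalClosure

lemma crit {ι X : Type} [NormedAddCommGroup X] [NormedSpace ℝ X] (v : ι → X) (e : ℕ ≃ ι) (C : ℝ)
    (h0 : ∀ i, v i ≠ 0) (h : ∀ (c : ι →₀ ℝ) (s : Finset ι),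
      ‖∑ i ∈ s, c i • v i‖ ≤ C * ‖Finsupp.linearCombination ℝ v c‖) :
    ∃ b : SchauderBasis ℝ (cspan v), ∀ n, (b n : X) = v (e n) := by
  classical
  have li : LinearIndependent ℝ v := linearIndependent_iff.2 fun c hc => Finsupp.ext fun i => by
    simpa [hc, h0] using h c {i}
  have : ∀ i, ∃ φ : StrongDual ℝ X, ∀ c, φ (Finsupp.linearCombination ℝ v c) = c i := fun i => by
    obtain ⟨φ, hφ, -⟩ := exists_extension_norm_eq _ (LinearMap.mkContinuous
      (Finsupp.lapply i ∘ₗ li.repr) (C / ‖v i‖) fun x => by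
        have := h (li.repr x) {i}
        rw [sum_singleton, norm_smul, li.linearCombination_repr] at this
        rwa [div_mul_eq_mul_div, le_div_iff₀ (norm_pos_iff.2 (h0 i))])
    refine ⟨φ, fun c => (hφ ⟨_, Finsupp.range_linearCombination ℝ (v := v) ▸ ⟨c, rfl⟩⟩).trans ?_⟩
    exact congrArg (· i) (li.repr_eq (l := c) (x := ⟨_, _⟩) rfl)
  choose φ hφ using this
  have bd : ∀ s : Finset ι, ∀ x ∈ cspan v, ‖∑ i ∈ s, φ i x • v i‖ ≤ C * ‖x‖ := fun s =>
    closure_minimal (t := {x | ‖∑ i ∈ s, φ i x • v i‖ ≤ C * ‖x‖}) (fun x hx => by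
      obtain ⟨c, rfl⟩ := (Finsupp.range_linearCombination ℝ (v := v)).ge hx
      simpa only [Set.mem_setOf_eq, hφ] using h c s) (isClosed_le (by fun_prop) (by fun_prop))
  refine ⟨⟨fun n => ⟨v (e n), subset_closure (Submodule.subset_span ⟨_, rfl⟩)⟩,
    fun n => (φ (e n)).comp (cspan v).subtypeL, fun i j => ?_, fun x => ?_⟩, fun _ => rfl⟩
  · have := hφ (e i) (.single (e j) 1)
    by_cases h : i = j <;> simpa [h, Finsupp.single_apply, Ne.symm] using this
  rw [HasSum, SummationFilter.conditional_filter_eq_map_range, tendsto_map'_iff,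
    Metric.tendsto_nhds]
  intro ε hε
  obtain ⟨y, hy, xy⟩ := Metric.mem_closure_iff.1 x.2 (ε / (|C| + 1)) (by positivity)
  obtain ⟨c, rfl⟩ := (Finsupp.range_linearCombination ℝ (v := v)).ge hy
  filter_upwards [eventually_gt_atTop (c.support.sup e.symm)] with n hn
  have a1 := bd ((range n).map e.toEmbedding) _ ((cspan v).sub_mem x.2 (subset_closure hy))
  have a2 : ∑ i ∈ (range n).map e.toEmbedding, c i • v i = Finsupp.linearCombination ℝ v c := by
    rw [Finsupp.linearCombination_apply, Finsupp.sum_of_support_subset _ _ _ (by simp)]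
    exact fun i hi => by simpa using (le_sup (f := e.symm) hi).trans_lt hn
  simp only [map_sub, hφ, sub_smul, sum_sub_distrib, a2] at a1
  rw [dist_eq_norm, lt_div_iff₀ (by positivity)] at xy
  rw [Function.comp_apply, Subtype.dist_eq, dist_eq_norm]
  simp only [sum_map] at a1
  have a3 := norm_sub_le_norm_sub_add_norm_sub (∑ i ∈ range n, φ (e i) x • v (e i))
    (Finsupp.linearCombination ℝ v c) x
  rw [norm_sub_rev (Finsupp.linearCombination ℝ v c)] at a3
  simp at a1 ⊢
  nlinarith [le_abs_self C, norm_nonneg (x - Finsupp.linearCombination ℝ v c)]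

abbrev W : Type := ℕ × Finset ℕ × Bool

abbrev X : Type := lp (fun _ : W => ℝ) ⊤

noncomputable def ev (w : W) : X →L[ℝ] ℝ := lp.evalCLM ℝ _ ⊤ w

lemma ev_apply (w : W) (x : X) : ev w x = x w := rfl

lemma crit' {ι : Type} [DecidableEq ι] (v : ι → X)
    (h : ∀ w (s T : Finset ι), ∃ (a : ℝ) (w1 w2 w3 w4 : W), |a| ≤ 1 ∧ ∀ i ∈ T,
      (if i ∈ s then v i w else 0) = a * ((v i w1 + v i w2 + v i w3 - v i w4) / 2)) (c : ι →₀ ℝ)
    (s : Finset ι) : ‖∑ i ∈ s, c i • v i‖ ≤ 2 * ‖Finsupp.linearCombination ℝ v c‖ := by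
  refine lp.norm_le_of_forall_le (by positivity) fun w => ?_
  obtain ⟨a, w1, w2, w3, w4, ha, h⟩ := h w s (c.support ∪ s)
  set x := Finsupp.linearCombination ℝ v c with hx
  have b : ∀ w, |x w| ≤ ‖x‖ := fun w => lp.norm_apply_le_norm (by simp) x w
  have : (∑ i ∈ s, c i • v i) w = a * ((x w1 + x w2 + x w3 - x w4) / 2) := by
    rw [hx, Finsupp.linearCombination_apply, Finsupp.sum_of_support_subset _
      (subset_union_left (s₂ := s)) _ (by simp)]
    simp only [lp.coeFn_sum, Finset.sum_apply, lp.coeFn_smul, Pi.smul_apply, smul_eq_mul, ← sum_add_distrib,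
      ← sum_sub_distrib, sum_div, mul_sum]
    rw [← inter_eq_right.2 (subset_union_right (s₁ := c.support) (s₂ := s)), ← sum_ite_mem,
      inter_eq_right.2 subset_union_right]
    refine sum_congr rfl fun i hi => ?_
    rw [← mul_zero (c i), ← mul_ite, h i hi]
    ring
  rw [this, Real.norm_eq_abs, abs_mul]
  refine (mul_le_of_le_one_left (abs_nonneg _) ha).trans (abs_le.2 ⟨?_, ?_⟩) <;>
    linarith [abs_le.1 (b w1), abs_le.1 (b w2), abs_le.1 (b w3), abs_le.1 (b w4)]

def r (i : ℕ) (A : Finset ℕ) : ℝ := if i ∈ A then -1 else 1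

lemma rd (i : ℕ) (A B : Finset ℕ) : r i (A ∆ B) = r i A * r i B := by
  by_cases a : i ∈ A <;> by_cases b : i ∈ B <;> simp [r, mem_symmDiff, a, b]

lemma rf (i : ℕ) (A s : Finset ℕ) (P : ℕ → Prop) [DecidablePred P] :
    r i (A ∆ s.filter P) = if i ∈ s ∧ P i then -r i A else r i A := by
  rw [rd, r.eq_1 i (filter P s)]
  simp only [mem_filter]
  split_ifs <;> simp

def mk (p : W → Prop) [DecidablePred p] (i : ℕ) : X := ⟨fun w => if p w then r i w.2.1 else 0,
  memℓp_infty ⟨1, Set.forall_mem_range.2 fun w => by unfold r; split_ifs <;> simp⟩⟩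

@[simp] lemma mk_apply (p : W → Prop) [DecidablePred p] (i : ℕ) (w : W) :
    mk p i w = if p w then r i w.2.1 else 0 := rfl

def ρ (k i : ℕ) : X := mk (fun w => w.1 = k ∧ w.2.2 = true) i

def σ (k i : ℕ) : X := mk (fun w => w.1 = k ∧ (w.2.2 = true ∨ w.2.1 ⊆ range k)) i

noncomputable def u : (ℕ × Finset ℕ) ⊕ (ℕ × ℕ) → X
  | .inl p => lp.single ⊤ (p.1, p.2, false) 1
  | .inr p => ρ p.1 p.2

def y (p : ℕ × ℕ) : X :=
  if p.2 < p.1 then ρ p.1 p.2 else if p.2 < 2 * p.1 then σ p.1 (p.2 - p.1) else ρ p.1 (p.2 - p.1)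

lemma ne0 {x : X} (w : W) (h : x w ≠ 0) : x ≠ 0 := fun e => h (by simp [e])

lemma bu : ∃ (e : ℕ ≃ _) (b : SchauderBasis ℝ (cspan u)), ∀ n, (b n : X) = u (e n) := by
  refine ⟨_, crit u (Denumerable.eqv _).symm 2 ?_ (crit' u ?_)⟩
  · rintro (⟨k, A⟩ | ⟨k, i⟩)
    · exact ne0 (k, A, false) (by simp [u])
    · exact ne0 (k, ∅, true) (by simp [u, ρ, r])
  rintro ⟨k, A, _ | _⟩ s T
  · refine ⟨if .inl (k, A) ∈ s then 1 else 0, (k, A, false), (k, A, false), (k, A, false),
      (k, A, false), by split_ifs <;> simp, ?_⟩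
    rintro (p | p) -
    · by_cases h : p = (k, A)
      · simp [h, u]
      · simp [u, lp.single_apply, Pi.single_apply, show ¬(k = p.1 ∧ A = p.2) from
          fun ⟨a, b⟩ => h (Prod.ext a.symm b.symm)]
    · simp [u, ρ]
  · refine ⟨1, (k, A, true), (k, A ∆ (T.toRight.image Prod.snd).filter fun i => .inr (k, i) ∉ s, true),
      (k, A, true), (k, A, true), by simp, ?_⟩
    rintro (p | ⟨k', i⟩) hp
    · simp [u, lp.single_apply]
    · by_cases h : k = k'
      · subst h
        have : i ∈ T.toRight.image Prod.snd := mem_image.2 ⟨(k, i), by simpa using hp, rfl⟩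
        by_cases h : .inr (k, i) ∈ s <;> simp [-mem_image, u, ρ, rf, h, this]
      · simp [u, ρ, h]

lemma y0 (p : ℕ × ℕ) : y p ≠ 0 := ne0 (p.1, ∅, true) <| by
  unfold y
  split_ifs <;> simp [ρ, σ, r]

lemma bY : ∀ (c : ℕ × ℕ →₀ ℝ) (s : Finset (ℕ × ℕ)),
    ‖∑ i ∈ s, c i • y i‖ ≤ 2 * ‖Finsupp.linearCombination ℝ y c‖ := by
  refine crit' y ?_
  rintro ⟨k, A, _ | _⟩ s T
  · refine ⟨if A ⊆ range k then 1 else 0, (k, A, false),
      (k, A ∆ (range k).filter fun i => (k, i + k) ∉ s, false), (k, A, false), (k, A, false),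
      by split_ifs <;> simp, ?_⟩
    rintro ⟨k', m⟩ -
    unfold y
    by_cases h : k = k'
    · subst h
      by_cases hA : A ⊆ range k
      · have := symmDiff_subset_union.trans (union_subset hA
          (filter_subset (fun i => (k, i + k) ∉ s) (range k)))
        split_ifs with h1 h2 h3 h2 h3 <;> simp [ρ, σ, rd, hA, this]
        all_goals
          have : m - k < k := by omega
          have : m - k + k = m := by omega
          simp [r, *]
      · split_ifs <;> simp [ρ, σ, hA]
    · split_ifs <;> simp [ρ, σ, h]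
  · let B := (range (T.sup Prod.snd + 1)).filter fun i => (k, if i < k then i else i + k) ∉ s
    refine ⟨1, (k, A, true), (k, A ∆ B, true),
      (k, (A ∩ range k) ∆ (range k).filter fun i => (k, i + k) ∉ s, false),
      (k, (A ∆ B) ∩ range k, false), by simp, ?_⟩
    rintro ⟨k', m⟩ hp
    unfold y
    by_cases h : k = k'
    · subst h
      have := symmDiff_subset_union.trans (union_subset (inter_subset_right (s₁ := A))
        (filter_subset (fun i => (k, i + k) ∉ s) (range k)))
      have hm : m ≤ T.sup Prod.snd := le_sup (f := Prod.snd) hp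
      have ri : ∀ i < k, ∀ A, r i (A ∩ range k) = r i A := fun i hi A => by simp [r, hi]
      dsimp only
      by_cases h1 : m < k
      · by_cases h : (k, m) ∈ s <;> simp [h1, h, ρ, rf, B, Nat.lt_succ_iff, hm]
      by_cases h2 : m < 2 * k
      · have a1 : m - k < k := by omega
        have a2 : m - k + k = m := by omega
        simp only [h1, h2, if_true, if_false, σ, mk_apply, rf, ri _ a1, this, inter_subset_right]
        by_cases h : (k, m) ∈ s <;> simp [a1, a2, h, add_sub_right_comm]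
      · have a1 : ¬ m - k < k := by omega
        have a2 : m - k + k = m := by omega
        have a3 : m - k ≤ T.sup Prod.snd := by omega
        by_cases h : (k, m) ∈ s <;> simp [h1, h2, h, ρ, rf, B, Nat.lt_succ_iff, a1, a2, a3]
    · split_ifs <;> simp [ρ, σ, h]

lemma four (n : ℕ) (hn : 0 < n) : ∃ F : Finset ℕ → ℝ, (∀ A ⊆ range (n * n), |F A| ≤ 2) ∧
    ∀ i < n * n, ∑ B ∈ (range (n * n)).powerset, r i B * F B = 2 ^ (n * n) / n := by
  refine ⟨fun B => (∏ j ∈ range (n * n), (1 + Complex.I * (r j B / n : ℝ))).im, fun A _ =>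
    (Complex.abs_im_le_norm _).trans (abs_le_of_sq_le_sq' ?_ zero_le_two).2, fun i hi => ?_⟩
  · have : ∀ j, ‖1 + Complex.I * (r j A / n : ℝ)‖ ^ 2 ≤ Real.exp (1 / (n * n)) := fun j => by
      rw [Complex.sq_norm, Complex.normSq_apply]
      refine le_of_eq_of_le ?_ (Real.add_one_le_exp _)
      unfold r
      split_ifs <;> simp <;> ring
    rw [norm_prod, ← prod_pow]
    refine (prod_le_prod (fun _ _ => by positivity) fun j _ => this j).trans ?_
    rw [prod_const, card_range, ← Real.exp_nat_mul, Nat.cast_mul, mul_one_div_cancel (by positivity)]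
    linarith [Real.exp_one_lt_d9]
  have := prod_add (fun j => (if j = i then -1 else 1) * (1 + Complex.I * (-1 / n : ℝ)))
    (fun j => 1 + Complex.I * (1 / n : ℝ)) (range (n * n))
  rw [← mul_prod_erase _ _ (mem_range.2 hi), prod_congr rfl (g := fun _ => (2 : ℂ)) fun j hj => by
    simp [ne_of_mem_erase hj]; ring, prod_const, card_erase_of_mem (mem_range.2 hi), card_range]
    at this
  have h := congrArg Complex.im this
  rw [Complex.im_sum] at h
  refine (sum_congr rfl fun B hB => ?_).trans (h.symm.trans ?_)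
  · rw [← Complex.im_ofReal_mul, ← prod_sdiff (mem_powerset.1 hB), prod_mul_distrib, prod_ite_eq']
    congr 1
    rw [prod_congr rfl fun j hj => by rw [show r j B = 1 from if_neg (mem_sdiff.1 hj).2],
      prod_congr (s₁ := B) rfl fun j hj => by rw [show r j B = -1 from if_pos hj]]
    unfold r
    split_ifs <;> simp [mul_comm]
  · obtain ⟨m, hm⟩ := Nat.exists_eq_add_of_lt (mul_pos hn hn)
    rw [hm, show (2 : ℂ) ^ (0 + m + 1 - 1) = ((2 ^ m : ℝ) : ℂ) by simp, Complex.im_mul_ofReal]
    simp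
    ring

lemma σe (k i : ℕ) : σ k i = ρ k i + ∑ A ∈ (range k).powerset, r i A • u (.inl (k, A)) := by
  ext ⟨k', A, b⟩
  simp only [lp.coeFn_add, lp.coeFn_sum, Finset.sum_apply, lp.coeFn_smul, Pi.add_apply,
    Pi.smul_apply, u, lp.single_apply, Pi.single_apply, ρ, σ, mk_apply]
  by_cases h : k' = k <;> cases b <;> simp [h]

theorem result : ∃ (E : Type) (_ : NormedAddCommGroup E) (_ : NormedSpace ℝ E), CompleteSpace E ∧
    Nonempty (SchauderBasis ℝ E) ∧ ∃ y : ℕ → E, (∃ b : SchauderBasis ℝ (cspan y), ∀ n, (b n : E) = y n) ∧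
      ¬ ∃ (b : SchauderBasis ℝ E) (p : ℕ → ℕ), StrictMono p ∧ ∀ n, b (p n) = y n := by
  have um : ∀ j, u j ∈ cspan u := fun j => subset_closure (Submodule.subset_span ⟨_, rfl⟩)
  have ym : ∀ p, y p ∈ cspan u := fun p => by
    unfold y
    split_ifs
    exacts [um (.inr _), σe .. ▸ add_mem (um (.inr (p.1, p.2 - p.1))) (Submodule.sum_mem _ fun _ _ =>
      Submodule.smul_mem _ _ (um _)), um (.inr (p.1, p.2 - p.1))]
  refine ⟨cspan u, inferInstance, inferInstance, inferInstance, ⟨bu.choose_spec.choose⟩,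
    fun n => ⟨y n.unpair, ym _⟩, ?_, fun ⟨b, p, mp, hp⟩ => ?_⟩
  · have := crit (fun p => (⟨y p, ym p⟩ : cspan u)) Nat.pairEquiv.symm 2
      (fun p h => y0 p (congrArg Subtype.val h)) fun c s => by
        simpa [← Submodule.norm_coe, Finsupp.linearCombination_apply, Finsupp.sum] using bY c s
    rwa [show cspan (fun p => (⟨y p, ym p⟩ : cspan u)) = cspan fun n : ℕ => ⟨y n.unpair, ym _⟩ from
      congrArg (fun s => (Submodule.span ℝ s).topologicalClosure)
        (Nat.pairEquiv.symm.surjective.range_comp _).symm] at this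
  obtain ⟨C, hC⟩ := b.exists_norm_proj_le
  obtain ⟨n, hn⟩ := exists_nat_gt (max (2 * C) 0)
  have n0 : 0 < n := by exact_mod_cast (le_max_right _ _).trans_lt hn
  obtain ⟨F, F1, F2⟩ := four n n0
  set k := n * n with hk
  let S := b.proj (p (k.pair k))
  let a : ℕ → cspan u → ℝ := fun i x => (2⁻¹ : ℝ) * (ev (k, ∅, true) x - ev (k, {i}, true) x)
  let e : Finset ℕ → cspan u := fun A => ⟨_, um (.inl (k, A))⟩
  have lin : ∀ i (f : Finset ℕ → ℝ), a i (S (∑ A ∈ (range k).powerset, f A • e A)) =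
      ∑ A ∈ (range k).powerset, f A * a i (S (e A)) := fun i f => by
    simp [a, ← mul_sub, ← sum_sub_distrib, mul_sum, mul_left_comm]
  have h1 : ∀ i < k, ∑ A ∈ (range k).powerset, r i A * a i (S (e A)) = -1 := fun i hi => by
    have e1 : b (p (k.pair i)) = ⟨_, um (.inr (k, i))⟩ := (hp _).trans (by simp [y, hi, u])
    have e2 : b (p (k.pair (i + k))) = b (p (k.pair i)) + ∑ A ∈ (range k).powerset, r i A • e A := by
      rw [hp, e1]
      ext1
      simp [y, show i + k < 2 * k by omega, σe, u, e]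
    have := congrArg S e2
    rw [map_add, b.proj_apply_basis_mem, b.proj_apply_basis_mem,
      if_pos (mp (Nat.pair_lt_pair_right _ hi)), if_neg (mp.monotone (by
        rcases i.eq_zero_or_pos with rfl | h
        · simp
        · exact (Nat.pair_lt_pair_right _ (by omega)).le)).not_gt] at this
    rw [← lin, eq_neg_of_add_eq_zero_right this.symm, e1]
    norm_num [a, u, ρ, r, ev_apply]
  have h2 : ∀ B ⊆ range k, ∀ x : cspan u, ∑ i ∈ range k, r i B * a i x =
      (2⁻¹ : ℝ) * (ev (k, B, true) x - ev (k, B ∆ range k, true) x) := fun B hB x => by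
    have := ContinuousLinearMap.eqOn_closure_span (s := Set.range u)
      (f := ∑ i ∈ range k, r i B • (2⁻¹ : ℝ) • (ev (k, ∅, true) - ev (k, {i}, true)))
      (g := (2⁻¹ : ℝ) • (ev (k, B, true) - ev (k, B ∆ range k, true))) ?_ x.2
    · simpa [a] using this
    rintro _ ⟨p | ⟨k', j⟩, rfl⟩
    · simp [u, lp.single_apply, ev_apply]
    by_cases h : k = k'
    · simp [u, ρ, ev_apply, ← h, rd]
      by_cases hj : j < k
      · rw [sum_eq_single j (fun i _ hi => by simp [r, hi.symm]) (by simp [hj])]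
        simp [r.eq_1 j ∅, r.eq_1 j {j}, r.eq_1 j (range k), hj]
        ring
      · rw [sum_eq_zero fun i hi => by simp [r, show j ≠ i by rintro rfl; simp [hj] at hi]]
        simp [r.eq_1 j (range k), hj]
    · simp [u, ρ, h, ev_apply]
  have h3 : ∀ B ∈ (range k).powerset, -(2 * C) ≤ ∑ i ∈ range k, r i B *
      ∑ A ∈ (range k).powerset, F (A ∆ B) * a i (S (e A)) := fun B hB => by
    simp only [← lin]
    rw [h2 B (mem_powerset.1 hB)]
    set x := ∑ A ∈ (range k).powerset, F (A ∆ B) • e A with hx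
    have : ‖x‖ ≤ 2 := lp.norm_le_of_forall_le zero_le_two fun ⟨k', A, t⟩ => by
      change ‖ev _ (x : X)‖ ≤ 2
      rw [hx, Submodule.coe_sum, map_sum]
      simp only [e, u, Submodule.coe_smul, map_smul, ev_apply, lp.single_apply, Pi.single_apply]
      by_cases h : k' = k <;> cases t <;> simp [h]
      split_ifs with h'
      · exact F1 _ (symmDiff_subset_union.trans (union_subset h' (mem_powerset.1 hB)))
      · simp
    have b1 : ‖S x‖ ≤ C * 2 := (S.le_opNorm x).trans (mul_le_mul (hC _) this (norm_nonneg _)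
      ((norm_nonneg _).trans (hC 0)))
    have b2 : ∀ w, |ev w (S x)| ≤ ‖S x‖ := fun w => lp.norm_apply_le_norm (by simp) (S x).1 w
    linarith [abs_le.1 (b2 (k, B, true)), abs_le.1 (b2 (k, B ∆ range k, true))]
  have h4 := sum_le_sum h3
  have h5 : ∀ i ∈ range k, ∑ B ∈ (range k).powerset, r i B *
      ∑ A ∈ (range k).powerset, F (A ∆ B) * a i (S (e A)) = -(2 ^ k / n) := fun i hi => by
    simp only [mul_sum]
    rw [sum_comm, ← neg_one_mul, ← h1 i (mem_range.1 hi), ← F2 i (mem_range.1 hi), sum_mul]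
    refine sum_congr rfl fun A hA => ?_
    have m : ∀ B ∈ (range k).powerset, A ∆ B ∈ (range k).powerset := fun B hB => mem_powerset.2
      (symmDiff_subset_union.trans (union_subset (mem_powerset.1 hA) (mem_powerset.1 hB)))
    rw [mul_sum]
    refine sum_nbij' (A ∆ ·) (A ∆ ·) m m (by simp) (by simp) fun B _ => ?_
    have : r i A * r i A = 1 := by unfold r; split_ifs <;> simp
    rw [rd]
    linear_combination (-r i B * F (A ∆ B) * a i (S (e A))) * this
  rw [sum_comm, sum_congr rfl h5, sum_const, sum_const, card_powerset, card_range, hk] at h4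
  have : (0 : ℝ) < 2 ^ (n * n) := by positivity
  simp only [nsmul_eq_mul] at h4
  push_cast at h4
  field_simp at h4
  nlinarith [le_max_left (2 * C) 0]

end Pool.Agent.Results.MP_72464c_an.NoExt
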